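import Pool.Agent.H24.LV.Targets

/-!
# Power saving above the square root barrier: row NL
-/

set_option autoImplicit false

open Finset MeasureTheory

namespace Pool.Agent.H60.LVP

open Pool.Agent.H24.CL Pool.Agent.H24.LV

theorem DS_insert (S : Finset ℕ) (q : ℕ) (h : q ∉ S) : DS (insert q S) = q * DS S := by
  unfold DS
  rw [Finset.prod_insert h]

theorem DS_coprime (S : Finset ℕ) (q : ℕ) (h : q ∉ S) (hq : q.Prime) (hS : ∀ p ∈ S, p.Prime) :
    (DS S).Coprime q := by
  unfold DS
  apply Nat.Coprime.prod_left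
  intro p hp
  rw [Nat.coprime_primes (hS p hp) hq]
  rintro rfl
  exact h hp

theorem DS_pos (S : Finset ℕ) (hS : ∀ p ∈ S, p.Prime) : 0 < DS S := by
  unfold DS
  exact Finset.prod_pos fun p hp => (hS p hp).pos

/-- the density of a composite line -/
theorem hd_mul (hCO : L_CO) {k : ℕ} (q D : ℕ) (hq : 0 < q) (hD : 0 < D) (V : Set (X k))
    (b : X k) : hd (q * D) V b = (1 / (q : ℝ)) * ∑ r ∈ range q, hd D V (phi q r b) := by
  classical
  have h1 : ((pos (q * D) V b).card : ℝ) = ∑ r ∈ range q, ((pos D V (phi q r b)).card : ℝ) := by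
    rw [← Nat.cast_sum, Nat.cast_inj]
    unfold pos
    rw [← Finset.card_sigma]
    symm
    refine Finset.card_bij (fun (p : Σ _ : ℕ, ℕ) _ => p.1 + q * p.2) ?_ ?_ ?_
    · rintro ⟨r, x⟩ h
      simp only [Finset.mem_sigma, Finset.mem_filter, Finset.mem_range] at h ⊢
      obtain ⟨hr, hx, hV⟩ := h
      refine ⟨?_, ?_⟩
      · calc r + q * x < q + q * x := by omega
          _ = q * (x + 1) := by ring
          _ ≤ q * D := Nat.mul_le_mul_left _ hx
      · rw [hCO.1 k D q x r b, mul_comm D q] at hV
        exact hV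
    · rintro ⟨r, x⟩ h ⟨r', x'⟩ h' he
      simp only [Finset.mem_sigma, Finset.mem_filter, Finset.mem_range] at h h'
      simp only at he
      have e1 : r = r' := by
        have := congrArg (· % q) he
        simp only [Nat.add_mul_mod_self_left] at this
        rwa [Nat.mod_eq_of_lt h.1, Nat.mod_eq_of_lt h'.1] at this
      subst e1
      have e2 : x = x' := by
        have := Nat.add_left_cancel he
        exact Nat.eq_of_mul_eq_mul_left hq this
      subst e2
      rfl
    · intro x hx
      simp only [Finset.mem_filter, Finset.mem_range] at hx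
      refine ⟨⟨x % q, x / q⟩, ?_, ?_⟩
      · simp only [Finset.mem_sigma, Finset.mem_filter, Finset.mem_range]
        refine ⟨Nat.mod_lt _ hq, ?_, ?_⟩
        · exact Nat.div_lt_of_lt_mul hx.1
        · rw [hCO.1 k D q (x / q) (x % q) b, mul_comm D q, Nat.mod_add_div]
          exact hx.2
      · exact Nat.mod_add_div x q
  unfold hd
  rw [h1, ← Finset.sum_div]
  push_cast
  have hq' : (q : ℝ) ≠ 0 := by positivity
  have hD' : (D : ℝ) ≠ 0 := by positivity
  field_simp

theorem pf_NL (hCO : L_CO) : L_NL := by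
  classical
  intro k S V Gd P ν m τ Ω kap q hqS hSD b x hx hStar hL
  have hpr : ∀ p ∈ insert q S, p.Prime := fun p hp => (hSD.pr p hp).1
  have hq : q.Prime := hpr q (Finset.mem_insert_self _ _)
  have hS : ∀ p ∈ S, p.Prime := fun p hp => hpr p (Finset.mem_insert_of_mem hp)
  have hD : 0 < DS S := DS_pos S hS
  have hco := DS_coprime S q hqS hq hS
  unfold Lonely at hL
  have h1 := fun h2 => hL ⟨hStar, h2⟩
  replace h1 := le_of_not_gt h1
  set Zs := (range q).filter fun z => Star (insert q S) V Gd b (x % DS S + DS S * z) ∧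
      hd (DS S) V (phi q (x % q) b) ≤
        hd (DS S) V (phi q ((x % DS S + DS S * z) % q) b) with hZs
  rw [DS_insert S q hqS, hd_mul hCO q (DS S) hq.pos hD]
  set h0 := hd (DS S) V (phi q (x % q) b) with hh0
  have hh0' : 0 ≤ h0 := by
    rw [hh0]
    unfold hd
    positivity
  have hinj : Set.InjOn (fun z => (x % DS S + DS S * z) % q) Zs := by
    intro z hz z' hz' he
    have hz1 : z < q := by
      have := (Finset.mem_filter.1 hz).1
      exact Finset.mem_range.1 this
    have hz1' : z' < q := by
      have := (Finset.mem_filter.1 hz').1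
      exact Finset.mem_range.1 this
    have e1 : x % DS S + DS S * z ≡ x % DS S + DS S * z' [MOD q] := he
    have e2 : DS S * z ≡ DS S * z' [MOD q] := Nat.ModEq.add_left_cancel' _ e1
    have e3 : z ≡ z' [MOD q] := Nat.ModEq.cancel_left_of_coprime (by
      rw [Nat.gcd_comm]; exact hco) e2
    exact Nat.ModEq.eq_of_lt_of_lt e3 hz1 hz1'
  have h2 : (Zs.card : ℝ) * h0 ≤ ∑ r ∈ range q, hd (DS S) V (phi q r b) := by
    have h3 : Zs.image (fun z => (x % DS S + DS S * z) % q) ⊆ range q := by
      intro r hr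
      obtain ⟨z, _, rfl⟩ := Finset.mem_image.1 hr
      exact Finset.mem_range.2 (Nat.mod_lt _ hq.pos)
    have h4 : ∑ r ∈ Zs.image (fun z => (x % DS S + DS S * z) % q), hd (DS S) V (phi q r b) ≤
        ∑ r ∈ range q, hd (DS S) V (phi q r b) := by
      apply Finset.sum_le_sum_of_subset_of_nonneg h3
      intro r _ _
      unfold hd
      positivity
    refine le_trans ?_ h4
    rw [Finset.sum_image hinj, ← nsmul_eq_mul]
    apply Finset.card_nsmul_le_sum
    intro z hz
    exact (Finset.mem_filter.1 hz).2.2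
  have hq' : (0 : ℝ) < q := by exact_mod_cast hq.pos
  rw [one_div, inv_mul_eq_div, le_div_iff₀ hq']
  calc kap * h0 * q = kap * q * h0 := by ring
    _ ≤ (Zs.card : ℝ) * h0 := mul_le_mul_of_nonneg_right h1 hh0'
    _ ≤ _ := h2

end Pool.Agent.H60.LVP
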