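import Pool.Agent.H60.LVP.TR

/-!
# Power saving above the square root barrier: row PL
-/

set_option autoImplicit false

open Finset MeasureTheory

namespace Pool.Agent.H60.LVP

open Pool.Agent.H24.CL Pool.Agent.H24.LV

open Classical in
/-- representatives of classes -/
theorem reps {k : ℕ} (Λ : AddSubgroup (X k)) (g : X k → X k) (Y : Finset (X k)) (n : ℕ)
    (hn : ∀ κ ∈ Y, (Y.filter fun κ' => g κ' - g κ ∈ Λ).card ≤ n) :
    ∃ Y' ⊆ Y, (∀ b ∈ Y', ∀ b' ∈ Y', g b - g b' ∈ Λ → b = b') ∧ Y.card ≤ n * Y'.card := by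
  set f : X k → X k ⧸ Λ := fun κ => QuotientAddGroup.mk (g κ) with hf
  have h1 : Y.card ≤ n * (Y.image f).card := by
    apply Finset.card_le_mul_card_image
    intro c hc
    obtain ⟨κ, hκ, rfl⟩ := Finset.mem_image.1 hc
    refine le_trans (Finset.card_le_card ?_) (hn κ hκ)
    intro κ' hκ'
    rw [Finset.mem_filter] at hκ' ⊢
    refine ⟨hκ'.1, ?_⟩
    have := hκ'.2
    simp only [hf] at this
    rw [eq_comm, QuotientAddGroup.eq] at this
    rwa [neg_add_eq_sub] at this
  have h2 : ∀ c ∈ Y.image f, ∃ κ ∈ Y, f κ = c := fun c hc => Finset.mem_image.1 hc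
  choose! r hr hr' using h2
  have hinj : Set.InjOn r (Y.image f) := by
    intro c hc c' hc' he
    rw [← hr' c hc, ← hr' c' hc', he]
  refine ⟨(Y.image f).image r, ?_, ?_, ?_⟩
  · intro b hb
    obtain ⟨c, hc, rfl⟩ := Finset.mem_image.1 hb
    exact hr c hc
  · intro b hb b' hb' hd'
    obtain ⟨c, hc, rfl⟩ := Finset.mem_image.1 hb
    obtain ⟨c', hc', rfl⟩ := Finset.mem_image.1 hb'
    have h4 : c = c' := by
      rw [← hr' c hc, ← hr' c' hc']
      simp only [hf]
      rw [eq_comm, QuotientAddGroup.eq, neg_add_eq_sub]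
      exact hd'
    rw [h4]
  · rwa [Finset.card_image_of_injOn hinj]

theorem meas_acr {k : ℕ} (hq : ∀ D y : ℕ, 1 ≤ D → Measurable (phi D y : X k → X k))
    {p q : ℕ} (hp : 1 ≤ p) (hq1 : 1 ≤ q) {V G : Set (X k)} (hV : MeasurableSet V)
    (hG : MeasurableSet G) (y : ℕ) : Measurable fun b : X k => acr p q V G b y := by
  classical
  unfold acr
  apply Measurable.div_const
  have h1 : (fun b : X k => (((range q).filter fun z => phi q z (phi p y b) ∈ V ∧
      phi q ((y + p * z) % q) b ∈ G).card : ℝ)) = fun b => ∑ z ∈ range q,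
      ({b | phi q z (phi p y b) ∈ V ∧ phi q ((y + p * z) % q) b ∈ G} : Set (X k)).indicator
        (fun _ => (1 : ℝ)) b := by
    funext b
    rw [Finset.card_filter]
    push_cast
    refine Finset.sum_congr rfl fun z _ => ?_
    by_cases h : phi q z (phi p y b) ∈ V ∧ phi q ((y + p * z) % q) b ∈ G
    · rw [Set.indicator_of_mem (by exact h), if_pos h]
    · rw [Set.indicator_of_notMem (by exact h), if_neg h]
  rw [h1]
  apply Finset.measurable_sum
  intro z _
  apply measurable_const.indicator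
  exact (((hq q z hq1).comp (hq p y hp)) hV).inter ((hq q _ hq1) hG)

theorem meas_lon {k : ℕ} (hq : ∀ D y : ℕ, 1 ≤ D → Measurable (phi D y : X k → X k))
    {p q : ℕ} (hp : 1 ≤ p) (hq1 : 1 ≤ q) {V G : Set (X k)} (hV : MeasurableSet V)
    (hG : MeasurableSet G) (kap : ℝ) (y : ℕ) :
    Measurable fun b : X k => lon p q V G kap b y := by
  classical
  unfold lon
  apply Finset.measurable_sum
  intro κ _
  have h1 : Measurable fun b : X k => acr p q V G (b + κ) y :=
    (meas_acr hq hp hq1 hV hG y).comp (measurable_id.add_const κ)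
  exact Measurable.ite (measurableSet_lt h1 measurable_const) (h1.const_mul _) measurable_const

theorem meas_Bad {k : ℕ} (hq : ∀ D y : ℕ, 1 ≤ D → Measurable (phi D y : X k → X k))
    {p q : ℕ} (hp : 1 ≤ p) (hq1 : 1 ≤ q) {V G : Set (X k)} (hV : MeasurableSet V)
    (hG : MeasurableSet G) (kap : ℝ) (y : ℕ) : MeasurableSet {b : X k | Bad p q V G kap b y} := by
  unfold Bad
  exact measurableSet_le measurable_const (meas_lon hq hp hq1 hV hG _ y)

theorem phiM {k : ℕ} (D y : ℕ) (h : 1 ≤ D) : Measurable (phi D y : X k → X k) :=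
  (hMP k D y h).1.measurable

theorem vol_phi {k : ℕ} (D y : ℕ) (h : 1 ≤ D) {A : Set (X k)} (hA : MeasurableSet A) :
    volume.real {b : X k | phi D y b ∈ A} = volume.real A :=
  (hMP k D y h).2.2.measureReal_preimage hA.nullMeasurableSet

open Classical in
/-- the number of the elements of `H k (p q) k` which `phi p y` maps to `H k q 1` -/
theorem cls_le (hCO : L_CO) {k p q : ℕ} (hp : 1 ≤ p) (hq : 1 ≤ q) (y : ℕ) (T : Finset (X k))
    (hT : ∀ δ ∈ T, phi p y δ ∈ H k q 1) : T.card ≤ p ^ (KN k) * q ^ k := by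
  -- δ ↦ q δ has kernel of size q^k and image in the kernel of phi p y
  have h1 : T.card ≤ q ^ k * (T.image fun δ => q • δ).card := by
    apply Finset.card_le_mul_card_image
    intro c hc
    obtain ⟨δ, hδ, rfl⟩ := Finset.mem_image.1 hc
    have hcard : (HF k q 1).card = q ^ k := by
      have := (hTO k q hq).2.2.1 1
      rwa [one_mul] at this
    rw [← hcard]
    apply Finset.card_le_card_of_injOn (fun δ' => δ' - δ)
    · intro δ' hδ'
      show δ' - δ ∈ HF k q 1
      rw [(hTO k q hq).2.1 1 (δ' - δ), mem_H, pow_one, smul_sub, sub_eq_zero]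
      exact (Finset.mem_filter.1 hδ').2
    · intro a _ b _ hab
      exact sub_left_injective hab
  have h2 : (T.image fun δ => q • δ).card ≤ p ^ (KN k) := by
    rw [← (hCO.2.2.2.1 k p y hp).1]
    apply Finset.card_le_card
    intro c hc
    obtain ⟨δ, hδ, rfl⟩ := Finset.mem_image.1 hc
    rw [(hCO.2.2.2.1 k p y hp).2, map_nsmul]
    have := hT δ hδ
    rwa [mem_H, pow_one] at this
  calc T.card ≤ q ^ k * (T.image fun δ => q • δ).card := h1
    _ ≤ q ^ k * p ^ (KN k) := Nat.mul_le_mul_left _ h2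
    _ = _ := by ring

open Classical in
/-- there are many such elements -/
theorem cls_ge (hCO : L_CO) {k p q : ℕ} (hp : 1 ≤ p) (hq : 1 ≤ q) (hco : p.Coprime q) (z : ℕ) :
    q ^ (KN k) * p ^ k ≤ ((HF k (p * q) k).filter fun δ => phi q z δ ∈ H k p 1).card := by
  have hcard : (HF k p 1).card = p ^ k := by
    have := (hTO k p hp).2.2.1 1
    rwa [one_mul] at this
  rw [← (hCO.2.2.2.1 k q z hq).1, ← hcard, ← Finset.card_product]
  have hker : ∀ κ ∈ Kr k q z, κ ∈ H k q k := by
    intro κ hκ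
    apply (hKC k q z hq).2
    rw [AddMonoidHom.mem_ker]
    exact ((hCO.2.2.2.1 k q z hq).2 κ).1 hκ
  have hF1 : ∀ δ, δ ∈ HF k p 1 → p • δ = 0 := by
    intro δ hδ
    have := ((hTO k p hp).2.1 1 δ).1 hδ
    rwa [mem_H, pow_one] at this
  apply Finset.card_le_card_of_injOn (fun x => x.1 + x.2)
  · rintro ⟨κ, δ⟩ hx
    rw [Finset.mem_coe, Finset.mem_product] at hx
    have h1 : κ ∈ Kr k q z := hx.1
    have h2 : δ ∈ HF k p 1 := hx.2
    show κ + δ ∈ (HF k (p * q) k).filter fun δ => phi q z δ ∈ H k p 1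
    rw [Finset.mem_filter]
    refine ⟨?_, ?_⟩
    · rw [(hTO k (p * q) (Nat.mul_pos hp hq)).2.1 k (κ + δ), mem_H, smul_add, mul_pow]
      have h3 : (q ^ k) • κ = 0 := hker κ h1
      have h4 : (p ^ k) • δ = 0 := by
        rcases Nat.eq_zero_or_pos k with rfl | hk
        · -- k = 0: the torus is a point
          exact Subsingleton.elim _ _
        · obtain ⟨j, rfl⟩ := Nat.exists_eq_succ_of_ne_zero hk.ne'
          rw [pow_succ, mul_smul, hF1 δ h2, smul_zero]
      rw [mul_smul, h3, smul_zero, zero_add, mul_comm, mul_smul, h4, smul_zero]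
    · rw [map_add, ((hCO.2.2.2.1 k q z hq).2 κ).1 h1, zero_add]
      apply phi_H
      rw [mem_H, pow_one]
      exact hF1 δ h2
  · rintro ⟨κ, δ⟩ hx ⟨κ', δ'⟩ hx' he
    rw [Finset.mem_coe, Finset.mem_product] at hx hx'
    have he' : κ + δ = κ' + δ' := he
    have h1 : κ - κ' = δ' - δ := by
      rw [sub_eq_sub_iff_add_eq_add, he', add_comm]
    have h2 : (q ^ k) • (κ - κ') = 0 :=
      AddSubgroup.sub_mem (H k q k) (hker κ hx.1) (hker κ' hx'.1)
    have h3 : p • (κ - κ') = 0 := by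
      rw [h1, smul_sub, hF1 δ hx.2, hF1 δ' hx'.2, sub_zero]
    have h4 : κ - κ' = 0 := by
      have hc : (q ^ k).Coprime p := Nat.Coprime.pow_left k hco.symm
      have h5 : addOrderOf (κ - κ') ∣ q ^ k := addOrderOf_dvd_of_nsmul_eq_zero h2
      have h6 : addOrderOf (κ - κ') ∣ p := addOrderOf_dvd_of_nsmul_eq_zero h3
      have h7 := Nat.dvd_gcd h5 h6
      rw [hc] at h7
      have h8 := Nat.dvd_one.1 h7
      rwa [AddMonoid.addOrderOf_eq_one_iff] at h8
    have e1 : κ = κ' := sub_eq_zero.1 h4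
    rw [e1] at he'
    have e2 : δ = δ' := add_left_cancel he'
    rw [e1, e2]

open Classical in
/-- the translates by a coset and the good lines of a table -/
theorem good_count (hCO : L_CO) {k p q : ℕ} (hp : 1 ≤ p) (hq : 1 ≤ q) (hco : p.Coprime q)
    {G : Set (X k)} (hinv : ∀ a ∈ G, ∀ h ∈ H k p 1, a + h ∈ G) (a : X k) (z : ℕ)
    (Z : Finset (X k)) (hZ : ∀ b ∈ Z, b - a ∈ H k (p * q) k ∧ phi q z b ∈ G)
    (hZ' : ∀ b ∈ Z, ∀ b' ∈ Z, phi q z (b - b') ∈ H k p 1 → b = b') :
    q ^ (KN k) * p ^ k * Z.card ≤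
      ((HF k (p * q) k).filter fun γ => phi q z (a + γ) ∈ G).card := by
  set T := (HF k (p * q) k).filter fun δ => phi q z δ ∈ H k p 1 with hT
  have hpq : 1 ≤ p * q := Nat.mul_pos hp hq
  have h1 : Z.card * T.card ≤
      ((HF k (p * q) k).filter fun γ => phi q z (a + γ) ∈ G).card := by
    rw [← Finset.card_product]
    apply Finset.card_le_card_of_injOn (fun x => x.1 - a + x.2)
    · rintro ⟨b, δ⟩ hx
      rw [Finset.mem_coe, Finset.mem_product] at hx
      have h2 : b ∈ Z := hx.1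
      have h3 := Finset.mem_filter.1 hx.2
      show b - a + δ ∈ (HF k (p * q) k).filter fun γ => phi q z (a + γ) ∈ G
      rw [Finset.mem_filter]
      refine ⟨?_, ?_⟩
      · rw [(hTO k (p * q) hpq).2.1 k]
        exact AddSubgroup.add_mem _ (hZ b h2).1 (((hTO k (p * q) hpq).2.1 k δ).1 h3.1)
      · have e1 : a + (b - a + δ) = b + δ := by abel
        rw [e1, map_add]
        exact hinv _ (hZ b h2).2 _ h3.2
    · rintro ⟨b, δ⟩ hx ⟨b', δ'⟩ hx' he
      rw [Finset.mem_coe, Finset.mem_product] at hx hx'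
      have he' : b - a + δ = b' - a + δ' := he
      have h3 := (Finset.mem_filter.1 hx.2).2
      have h3' := (Finset.mem_filter.1 hx'.2).2
      have e1 : b - b' = δ' - δ := by
        have : b - b' = (b - a + δ) - (b' - a) - δ := by abel
        rw [this, he']
        abel
      have e2 : phi q z (b - b') ∈ H k p 1 := by
        rw [e1, map_sub]
        exact AddSubgroup.sub_mem _ h3' h3
      have e3 : b = b' := hZ' b hx.1 b' hx'.1 e2
      subst e3
      have e4 : δ = δ' := add_left_cancel he'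
      rw [e4]
  have h2 := cls_ge hCO hp hq hco z (k := k)
  calc q ^ (KN k) * p ^ k * Z.card ≤ T.card * Z.card := Nat.mul_le_mul_right _ h2
    _ = Z.card * T.card := mul_comm _ _
    _ ≤ _ := h1

open Classical in
theorem bad_reps (hCO : L_CO) {k p q : ℕ} (hp : 1 ≤ p) (hq : 1 ≤ q) (a : X k) (y : ℕ)
    (A : Set (X k)) :
    ∃ Y : Finset (X k), (∀ b ∈ Y, b - a ∈ H k (p * q) k ∧ b ∈ A) ∧
      (∀ b ∈ Y, ∀ b' ∈ Y, phi p y (b - b') ∈ H k q 1 → b = b') ∧
      ((HF k (p * q) k).filter fun γ => a + γ ∈ A).card ≤ p ^ (KN k) * q ^ k * Y.card := by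
  have hpq : 1 ≤ p * q := Nat.mul_pos hp hq
  set Y0 := ((HF k (p * q) k).filter fun γ => a + γ ∈ A).image fun γ => a + γ with hY0
  have hc : Y0.card = ((HF k (p * q) k).filter fun γ => a + γ ∈ A).card :=
    Finset.card_image_of_injective _ (add_right_injective a)
  obtain ⟨Y, hY, hY', hcard⟩ := reps (H k q 1) (phi p y) Y0 (p ^ (KN k) * q ^ k) (by
    intro κ hκ
    have h1 : (Y0.filter fun κ' => phi p y κ' - phi p y κ ∈ H k q 1).card =
        ((Y0.filter fun κ' => phi p y κ' - phi p y κ ∈ H k q 1).image fun κ' => κ' - κ).card :=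
      (Finset.card_image_of_injective _ (sub_left_injective)).symm
    rw [h1]
    apply cls_le hCO hp hq y
    intro δ hδ
    obtain ⟨κ', hκ', rfl⟩ := Finset.mem_image.1 hδ
    rw [map_sub]
    exact (Finset.mem_filter.1 hκ').2)
  refine ⟨Y, ?_, ?_, ?_⟩
  · intro b hb
    obtain ⟨γ, hγ, rfl⟩ := Finset.mem_image.1 (hY hb)
    have h2 := Finset.mem_filter.1 hγ
    refine ⟨?_, h2.2⟩
    rw [add_sub_cancel_left]
    exact ((hTO k (p * q) hpq).2.1 k γ).1 h2.1
  · intro b hb b' hb' hd'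
    apply hY' b hb b' hb'
    rwa [← map_sub]
  · rw [← hc]
    exact hcard

open Classical in
theorem pf_PL (hPC : L_PC) (hCO : L_CO) (hAI : L_AI) : L_PL := by
  intro k hk
  obtain ⟨C, hC, hPC⟩ := hPC k hk
  refine ⟨C, hC, ?_⟩
  intro S V Gd P ν m τ Ω kap hSD hkap hkap1 h8 p hp q hq hpq
  have hPC' := hPC S V Gd P ν m τ Ω kap hSD hkap hkap1 h8 p hp q hq hpq
  have hpp := (hSD.pr p hp).1
  have hqp := (hSD.pr q hq).1
  have hp1 : 1 ≤ p := hpp.pos
  have hq1 : 1 ≤ q := hqp.pos
  have hco : p.Coprime q := (Nat.coprime_primes hpp hqp).2 hpq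
  have hΓ : H k (p * q) k = H k p k ⊔ H k q k := hCO.2.2.2.2 k p q hco
  have hK := KN_ge k (by omega)
  have hp0 : (0 : ℝ) < p := by exact_mod_cast hp1
  have hq0 : (0 : ℝ) < q := by exact_mod_cast hq1
  have hm0 : 0 ≤ m := by have := hSD.hm; have := hSD.hν; linarith
  -- the sets
  obtain ⟨A, hA⟩ : ∃ A : ℕ → Set (X k), A = fun y =>
    {b : X k | phi p y b ∈ Gd q ∧ Bad p q V (Gd p) kap b y} := ⟨_, rfl⟩
  obtain ⟨B, hB⟩ : ∃ B : ℕ → Set (X k), B = fun z => {b : X k | phi q z b ∈ Gd p} := ⟨_, rfl⟩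
  have hAm : ∀ y, MeasurableSet (A y) := by
    intro y
    rw [hA]
    exact ((phiM p y hp1) (hSD.mG q hq)).inter
      (meas_Bad phiM hp1 hq1 hSD.mV (hSD.mG p hp) kap y)
  have hBm : ∀ z, MeasurableSet (B z) := by
    intro z
    rw [hB]
    exact (phiM q z hq1) (hSD.mG p hp)
  have hmA : ∀ y b, b ∈ A y ↔ phi p y b ∈ Gd q ∧ Bad p q V (Gd p) kap b y := by
    intro y b; rw [hA]; exact Iff.rfl
  have hmB : ∀ z b, b ∈ B z ↔ phi q z b ∈ Gd p := by
    intro z b; rw [hB]; exact Iff.rfl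
  set ΓF := HF k (p * q) k with hΓF
  obtain ⟨R, hR⟩ : ∃ R : ℝ, R = C * m ^ 3 / (kap ^ 3 * q) *
    ((p : ℝ) ^ (KN k) * (q : ℝ) ^ k) / ((q : ℝ) ^ (KN k) * (p : ℝ) ^ k) := ⟨_, rfl⟩
  have hR0 : 0 ≤ R := by rw [hR]; positivity
  -- pointwise
  have hpt : ∀ a : X k, ∑ y ∈ range p, ((ΓF.filter fun γ => a + γ ∈ A y).card : ℝ) ≤
      R * ∑ z ∈ range q, ((ΓF.filter fun γ => a + γ ∈ B z).card : ℝ) := by
    intro a
    have h1 := fun y => bad_reps hCO hp1 hq1 a y (A y)
    choose Y hY1 hY2 hY3 using h1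
    obtain ⟨hc1, hc2⟩ := hPC' a Y (fun y _ b hb => by
        have h2 := hY1 y b hb
        rw [hΓ] at h2
        exact ⟨h2.1, (hmA y b).1 h2.2⟩) (fun y _ b hb b' hb' hd' => hY2 y b hb b' hb' hd')
    have hL : ∑ y ∈ range p, ((ΓF.filter fun γ => a + γ ∈ A y).card : ℝ) ≤
        (p : ℝ) ^ (KN k) * (q : ℝ) ^ k * ∑ y ∈ range p, ((Y y).card : ℝ) := by
      rw [Finset.mul_sum]
      apply Finset.sum_le_sum
      intro y _
      have := hY3 y
      exact_mod_cast this
    by_cases hne : ∃ y < p, (Y y).Nonempty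
    · obtain ⟨Z, hZ1, hZ2, hZ3⟩ := hc2 hne
      have hG : (q : ℝ) ^ (KN k) * (p : ℝ) ^ k * (kap * q) ≤
          ∑ z ∈ range q, ((ΓF.filter fun γ => a + γ ∈ B z).card : ℝ) := by
        calc (q : ℝ) ^ (KN k) * (p : ℝ) ^ k * (kap * q)
            ≤ (q : ℝ) ^ (KN k) * (p : ℝ) ^ k * ∑ z ∈ range q, ((Z z).card : ℝ) :=
              mul_le_mul_of_nonneg_left hZ3 (by positivity)
          _ = ∑ z ∈ range q, (q : ℝ) ^ (KN k) * (p : ℝ) ^ k * ((Z z).card : ℝ) := by
              rw [Finset.mul_sum]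
          _ ≤ _ := by
              apply Finset.sum_le_sum
              intro z hz
              have hz' := Finset.mem_range.1 hz
              have h2 := good_count hCO hp1 hq1 hco (hSD.inv p hp) a z (Z z) (fun b hb => by
                have h3 := hZ1 z hz' b hb
                rw [← hΓ] at h3
                exact h3) (hZ2 z hz')
              have h4 : (ΓF.filter fun γ => a + γ ∈ B z) =
                  ΓF.filter fun γ => phi q z (a + γ) ∈ Gd p := by
                apply Finset.filter_congr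
                intro γ _
                exact hmB z (a + γ)
              rw [h4]
              exact_mod_cast h2
      calc ∑ y ∈ range p, ((ΓF.filter fun γ => a + γ ∈ A y).card : ℝ)
          ≤ (p : ℝ) ^ (KN k) * (q : ℝ) ^ k * ∑ y ∈ range p, ((Y y).card : ℝ) := hL
        _ ≤ (p : ℝ) ^ (KN k) * (q : ℝ) ^ k * (C * m ^ 3 / kap ^ 2) :=
            mul_le_mul_of_nonneg_left hc1 (by positivity)
        _ = R * ((q : ℝ) ^ (KN k) * (p : ℝ) ^ k * (kap * q)) := by
            rw [hR]; field_simp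
        _ ≤ _ := mul_le_mul_of_nonneg_left hG hR0
    · push Not at hne
      have h0 : ∑ y ∈ range p, ((Y y).card : ℝ) = 0 := by
        apply Finset.sum_eq_zero
        intro y hy
        rw [hne y (Finset.mem_range.1 hy)]
        simp
      rw [h0, mul_zero] at hL
      refine hL.trans ?_
      apply mul_nonneg hR0
      exact Finset.sum_nonneg fun _ _ => Nat.cast_nonneg _
  -- integration
  have hpq1 : 1 ≤ p * q := Nat.mul_pos hp1 hq1
  have hΓne : ΓF.Nonempty := by
    rw [← Finset.card_pos, hΓF, (hTO k (p * q) hpq1).2.2.1 k]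
    exact pow_pos hpq1 _
  have hi1 : ∑ y ∈ range p, volume.real (A y) ≤ R * ∑ z ∈ range q, volume.real (B z) := by
    have e1 : ∑ y ∈ range p, volume.real (A y) = (1 / (ΓF.card : ℝ)) *
        ∫ a : X k, ∑ y ∈ range p, ((ΓF.filter fun γ => a + γ ∈ A y).card : ℝ) := by
      rw [integral_finset_sum _ (fun y _ => card_int ΓF (A y) (hAm y)), Finset.mul_sum]
      exact Finset.sum_congr rfl fun y _ => vol_avg hAI ΓF hΓne (A y) (hAm y)
    have e2 : ∑ z ∈ range q, volume.real (B z) = (1 / (ΓF.card : ℝ)) *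
        ∫ a : X k, ∑ z ∈ range q, ((ΓF.filter fun γ => a + γ ∈ B z).card : ℝ) := by
      rw [integral_finset_sum _ (fun z _ => card_int ΓF (B z) (hBm z)), Finset.mul_sum]
      exact Finset.sum_congr rfl fun z _ => vol_avg hAI ΓF hΓne (B z) (hBm z)
    rw [e1, e2]
    have h3 : ∫ a : X k, ∑ y ∈ range p, ((ΓF.filter fun γ => a + γ ∈ A y).card : ℝ) ≤
        ∫ a : X k, R * ∑ z ∈ range q, ((ΓF.filter fun γ => a + γ ∈ B z).card : ℝ) := by
      apply integral_mono _ _ hpt
      · exact integrable_finset_sum _ (fun y _ => card_int ΓF (A y) (hAm y))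
      · exact (integrable_finset_sum _ (fun z _ => card_int ΓF (B z) (hBm z))).const_mul _
    rw [integral_const_mul] at h3
    calc 1 / (ΓF.card : ℝ) * ∫ a : X k, ∑ y ∈ range p, ((ΓF.filter fun γ => a + γ ∈ A y).card : ℝ)
        ≤ 1 / (ΓF.card : ℝ) * (R * ∫ a : X k, ∑ z ∈ range q,
          ((ΓF.filter fun γ => a + γ ∈ B z).card : ℝ)) :=
          mul_le_mul_of_nonneg_left h3 (by positivity)
      _ = _ := by ring
  have hBv : ∑ z ∈ range q, volume.real (B z) = q * volume.real (Gd p) := by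
    have : ∀ z ∈ range q, volume.real (B z) = volume.real (Gd p) := by
      intro z _
      rw [hB]
      exact vol_phi q z hq1 (hSD.mG p hp)
    rw [Finset.sum_congr rfl this, Finset.sum_const, Finset.card_range, nsmul_eq_mul]
  rw [hBv] at hi1
  have hAv : ∑ y ∈ range p, volume.real {b : X k | phi p y b ∈ Gd q ∧
      Bad p q V (Gd p) kap b y} = ∑ y ∈ range p, volume.real (A y) := by
    rw [hA]
  rw [hAv]
  have hms := hSD.ms p hp
  have hPp : P ≤ p := (hSD.pr p hp).2.2.1
  have hP1 := hSD.hP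
  have hΩ := hSD.hΩ
  have hpow1 : (p : ℝ) ^ (KN k) = (p : ℝ) ^ (KN k - k) * (p : ℝ) ^ k := by
    rw [← pow_add]; congr 1; omega
  have hpow2 : (q : ℝ) ^ (KN k) = (q : ℝ) ^ (KN k - k) * (q : ℝ) ^ k := by
    rw [← pow_add]; congr 1; omega
  calc (q : ℝ) ^ (KN k - k) * (1 / (p : ℝ) * ∑ y ∈ range p, volume.real (A y))
      ≤ (q : ℝ) ^ (KN k - k) * (1 / (p : ℝ) * (R * (q * volume.real (Gd p)))) := by
        apply mul_le_mul_of_nonneg_left _ (by positivity)
        exact mul_le_mul_of_nonneg_left hi1 (by positivity)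
    _ = C * m ^ 3 / (kap ^ 3 * p) * ((p : ℝ) ^ (KN k - k) * volume.real (Gd p)) := by
        rw [hR, hpow1, hpow2]
        field_simp
    _ ≤ C * m ^ 3 / (kap ^ 3 * p) * Ω :=
        mul_le_mul_of_nonneg_left hms (by positivity)
    _ ≤ C * m ^ 3 / (kap ^ 3 * P) * Ω := by
        apply mul_le_mul_of_nonneg_right _ hΩ
        apply div_le_div_of_nonneg_left (by positivity) (by positivity)
        exact mul_le_mul_of_nonneg_left hPp (by positivity)

end Pool.Agent.H60.LVP
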