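import Pool.Agent.H60.LVP.TR
import Pool.Agent.H34.CLV.EX
import Pool.Agent.H34.CLV.PF

/-!
# Power saving above the square root barrier: row RT
-/

set_option autoImplicit false

open Finset MeasureTheory

namespace Pool.Agent.H60.LVP

open Pool.Agent.H24.CL Pool.Agent.H24.LV

theorem hEX : T_EX := Pool.Agent.H34.CLV.pf_EX
theorem hPF : T_PF := Pool.Agent.H34.CLV.pf_PF hEX

/-- averaging over the kernel, for functions -/
theorem avg_fun (hCO : L_CO) (hAI : L_AI) {k q : ℕ} (hq : 1 ≤ q) (b : ℕ) (A : Set (X k))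
    (hA : MeasurableSet A) (ν : ℝ) (hν : Cnt (H k q k) A ν) (G : X k → ℝ) (hG : Measurable G)
    (B : ℝ) (hG0 : ∀ v, 0 ≤ G v) (hGB : ∀ v, G v ≤ B) :
    ∫ a in A, G (phi q b a) ≤ ν / (q : ℝ) ^ (KN k) * ∫ v, G v := by
  classical
  have hphi : Measurable (phi q b : X k → X k) := (hMP k q b hq).1.measurable
  have hB0 : 0 ≤ B := (hG0 0).trans (hGB 0)
  rw [← integral_indicator hA]
  have h1 := hAI k (Kr k q b) (A.indicator fun a => G (phi q b a)) B (by
      rw [← Finset.card_pos, (hCO.2.2.2.1 k q b hq).1]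
      exact pow_pos hq _) ((hG.comp hphi).indicator hA) (fun a => by
      by_cases h : a ∈ A
      · rw [Set.indicator_of_mem h, abs_of_nonneg (hG0 _)]; exact hGB _
      · rw [Set.indicator_of_notMem h, abs_zero]; exact hB0)
  rw [h1, (hCO.2.2.2.1 k q b hq).1]
  have h2 : ∀ a : X k, ∑ κ ∈ Kr k q b, A.indicator (fun a => G (phi q b a)) (a + κ) ≤
      ν * G (phi q b a) := by
    intro a
    have h3 : ∑ κ ∈ Kr k q b, A.indicator (fun a => G (phi q b a)) (a + κ) =
        (((Kr k q b).filter fun κ => a + κ ∈ A).card : ℝ) * G (phi q b a) := by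
      rw [Finset.card_filter]
      push_cast
      rw [Finset.sum_mul]
      refine Finset.sum_congr rfl fun κ hκ => ?_
      by_cases h : a + κ ∈ A
      · rw [Set.indicator_of_mem h, if_pos h, one_mul, map_add,
          ((hCO.2.2.2.1 k q b hq).2 κ).1 hκ, add_zero]
      · rw [Set.indicator_of_notMem h, if_neg h, zero_mul]
    rw [h3]
    apply mul_le_mul_of_nonneg_right _ (hG0 _)
    have h4 := hν (((Kr k q b).filter fun κ => a + κ ∈ A).image fun κ => a + κ) ?_ ?_
    · rwa [Finset.card_image_of_injective _ (add_right_injective a)] at h4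
    · intro y hy
      obtain ⟨κ, hκ, rfl⟩ := Finset.mem_image.1 hy
      exact (Finset.mem_filter.1 hκ).2
    · intro y hy y' hy'
      obtain ⟨κ, hκ, rfl⟩ := Finset.mem_image.1 hy
      obtain ⟨κ', hκ', rfl⟩ := Finset.mem_image.1 hy'
      have hker : ∀ κ ∈ Kr k q b, κ ∈ H k q k := by
        intro κ hκ
        apply (hKC k q b hq).2
        rw [AddMonoidHom.mem_ker]
        exact ((hCO.2.2.2.1 k q b hq).2 κ).1 hκ
      rw [add_sub_add_left_eq_sub]
      exact AddSubgroup.sub_mem _ (hker κ (Finset.mem_filter.1 hκ).1)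
        (hker κ' (Finset.mem_filter.1 hκ').1)
  have hGphi : Integrable (fun a : X k => ν * G (phi q b a)) := by
    apply Integrable.const_mul
    apply Integrable.of_bound (hG.comp hphi).aestronglyMeasurable B
    refine Filter.Eventually.of_forall fun a => ?_
    show ‖G (phi q b a)‖ ≤ B
    rw [Real.norm_of_nonneg (hG0 _)]
    exact hGB _
  have h5 : ∫ a : X k, ∑ κ ∈ Kr k q b, A.indicator (fun a => G (phi q b a)) (a + κ) ≤
      ∫ a : X k, ν * G (phi q b a) := by
    apply integral_mono _ hGphi h2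
    apply integrable_finset_sum
    intro κ _
    apply Integrable.of_bound (((hG.comp hphi).indicator hA).comp
      (measurable_id.add_const κ)).aestronglyMeasurable B
    refine Filter.Eventually.of_forall fun a => ?_
    show ‖A.indicator (fun a => G (phi q b a)) (a + κ)‖ ≤ B
    by_cases h : a + κ ∈ A
    · rw [Set.indicator_of_mem h, Real.norm_of_nonneg (hG0 _)]; exact hGB _
    · rw [Set.indicator_of_notMem h, norm_zero]; exact hB0
  rw [integral_const_mul] at h5
  have h6 : ∫ a : X k, G (phi q b a) = ∫ v, G v := by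
    have h7 := integral_map (μ := (volume : Measure (X k))) hphi.aemeasurable
      (f := G) hG.aestronglyMeasurable
    rw [(hMP k q b hq).2.2.map_eq] at h7
    exact h7.symm
  rw [h6] at h5
  have hq0 : (0 : ℝ) < (q : ℝ) ^ (KN k) := by
    have : (0 : ℝ) < q := by exact_mod_cast hq
    positivity
  push_cast
  calc 1 / (q : ℝ) ^ (KN k) * ∫ a : X k, ∑ κ ∈ Kr k q b,
        A.indicator (fun a => G (phi q b a)) (a + κ)
      ≤ 1 / (q : ℝ) ^ (KN k) * (ν * ∫ v, G v) := by
        apply mul_le_mul_of_nonneg_left h5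
        positivity
    _ = _ := by ring

/-- the tail of `|u N|` -/
theorem tail_int {k : ℕ} (hk : 3 ≤ k) {C : ℝ} (hC : 1 ≤ C) (hWT : ∀ (N : ℕ) (t : ℝ), 1 ≤ N → 0 < t →
    (N : ℝ) ^ (KN k) * t ^ (2 * KN k) * volume.real {a : X k | t ≤ ‖u N a‖} ≤ C)
    {N : ℕ} (hN : 1 ≤ N) {s : ℝ} (hs : 0 < s) :
    (N : ℝ) ^ (KN k) * s ^ (2 * KN k) *
      ∫ v : X k, (if s ≤ ‖u N v‖ then ‖u N v‖ else 0) ≤ 4 * C * s := by
  classical
  have hK : 1 ≤ KN k := le_trans (by omega) (KN_ge k (by omega))
  have hN0 : (0 : ℝ) < N := by exact_mod_cast hN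
  have hu1 : ∀ v : X k, ‖u N v‖ ≤ 1 := fun v => hEX.2.2.2.2.2.2.2.2 k N v
  have hum : Measurable fun v : X k => ‖u N v‖ := (hEX.2.2.2.2.2.2.2.1 k N).norm.measurable
  obtain ⟨J, hJ⟩ := pow_unbounded_of_one_lt (1 / s) (one_lt_two (α := ℝ))
  have hJs : 1 < 2 ^ J * s := by rwa [div_lt_iff₀ hs] at hJ
  have hset : ∀ r : ℝ, MeasurableSet {v : X k | r ≤ ‖u N v‖} := fun r =>
    measurableSet_le measurable_const hum
  -- pointwise
  have hpt : ∀ v : X k, (if s ≤ ‖u N v‖ then ‖u N v‖ else 0) ≤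
      ∑ j ∈ range J, {v : X k | 2 ^ j * s ≤ ‖u N v‖}.indicator (fun _ => 2 * (2 ^ j * s)) v := by
    intro v
    have hnn : ∀ j ∈ range J, 0 ≤
        {v : X k | 2 ^ j * s ≤ ‖u N v‖}.indicator (fun _ => 2 * (2 ^ j * s)) v := by
      intro j _
      apply Set.indicator_nonneg
      intro _ _
      positivity
    by_cases h : s ≤ ‖u N v‖
    · rw [if_pos h]
      have hex : ∃ j, ‖u N v‖ < 2 ^ j * s := ⟨J, lt_of_le_of_lt (hu1 v) hJs⟩
      have hfind := Nat.find_spec hex
      have hpos : 0 < Nat.find hex := by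
        rw [Nat.pos_iff_ne_zero]
        intro h0
        rw [h0, pow_zero, one_mul] at hfind
        linarith
      obtain ⟨i, hi⟩ := Nat.exists_eq_succ_of_ne_zero hpos.ne'
      have hi1 : 2 ^ i * s ≤ ‖u N v‖ := by
        have := Nat.find_min hex (m := i) (by omega)
        exact not_lt.1 this
      have hi2 : ‖u N v‖ ≤ 2 * (2 ^ i * s) := by
        rw [hi, pow_succ] at hfind
        linarith
      have hiJ : i < J := by
        have := Nat.find_min' hex (lt_of_le_of_lt (hu1 v) hJs)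
        omega
      refine hi2.trans ?_
      have h3 := Finset.single_le_sum hnn (Finset.mem_range.2 hiJ)
      rw [Set.indicator_of_mem (show v ∈ {v : X k | 2 ^ i * s ≤ ‖u N v‖} from hi1)] at h3
      exact h3
    · rw [if_neg h]
      exact Finset.sum_nonneg hnn
  have hint : ∫ v : X k, (if s ≤ ‖u N v‖ then ‖u N v‖ else 0) ≤
      ∑ j ∈ range J, 2 * (2 ^ j * s) * volume.real {v : X k | 2 ^ j * s ≤ ‖u N v‖} := by
    have h1 : ∫ v : X k, (if s ≤ ‖u N v‖ then ‖u N v‖ else 0) ≤ ∫ v : X k, ∑ j ∈ range J,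
        {v : X k | 2 ^ j * s ≤ ‖u N v‖}.indicator (fun _ => 2 * (2 ^ j * s)) v := by
      apply integral_mono _ _ hpt
      · apply Integrable.of_bound ((Measurable.ite (hset s) hum
          measurable_const).aestronglyMeasurable) 1
        refine Filter.Eventually.of_forall fun v => ?_
        split_ifs
        · rw [norm_norm]; exact hu1 v
        · simp
      · apply integrable_finset_sum
        intro j _
        exact (integrable_const _).indicator (hset _)
    refine h1.trans (le_of_eq ?_)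
    rw [integral_finset_sum]
    · refine Finset.sum_congr rfl fun j _ => ?_
      rw [integral_indicator_const _ (hset _), smul_eq_mul, mul_comm]
    · intro j _
      exact (integrable_const _).indicator (hset _)
  have hterm : ∀ j ∈ range J, (N : ℝ) ^ (KN k) * s ^ (2 * KN k) *
      (2 * (2 ^ j * s) * volume.real {v : X k | 2 ^ j * s ≤ ‖u N v‖}) ≤
      2 * C * s * (1 / 2) ^ j := by
    intro j _
    have h2j : (0 : ℝ) < 2 ^ j := by positivity
    have h1 := hWT N (2 ^ j * s) hN (by positivity)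
    rw [mul_pow] at h1
    set Vj := volume.real {v : X k | 2 ^ j * s ≤ ‖u N v‖} with hVj
    have hVj0 : 0 ≤ Vj := measureReal_nonneg
    -- 2^(2Kj) ≥ 4^j
    have h4 : (2 : ℝ) ^ j * 2 ^ j ≤ (2 ^ j) ^ (2 * KN k) := by
      calc (2 : ℝ) ^ j * 2 ^ j = (2 ^ j) ^ 2 := by ring
        _ ≤ (2 ^ j) ^ (2 * KN k) := by
            apply pow_le_pow_right₀ (one_le_pow₀ (by norm_num))
            omega
    have h5 : (N : ℝ) ^ (KN k) * ((2 ^ j * 2 ^ j) * s ^ (2 * KN k)) * Vj ≤ C := by
      refine le_trans ?_ h1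
      apply mul_le_mul_of_nonneg_right _ hVj0
      apply mul_le_mul_of_nonneg_left _ (by positivity)
      exact mul_le_mul_of_nonneg_right h4 (by positivity)
    have h6 : (N : ℝ) ^ (KN k) * s ^ (2 * KN k) * (2 * (2 ^ j * s) * Vj) =
        2 * s * (1 / 2) ^ j * ((N : ℝ) ^ (KN k) * ((2 ^ j * 2 ^ j) * s ^ (2 * KN k)) * Vj) := by
      rw [div_pow, one_pow]
      field_simp
    rw [h6]
    calc 2 * s * (1 / 2) ^ j * ((N : ℝ) ^ (KN k) * ((2 ^ j * 2 ^ j) * s ^ (2 * KN k)) * Vj)
        ≤ 2 * s * (1 / 2) ^ j * C := mul_le_mul_of_nonneg_left h5 (by positivity)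
      _ = _ := by ring
  calc (N : ℝ) ^ (KN k) * s ^ (2 * KN k) * ∫ v : X k, (if s ≤ ‖u N v‖ then ‖u N v‖ else 0)
      ≤ (N : ℝ) ^ (KN k) * s ^ (2 * KN k) *
        ∑ j ∈ range J, 2 * (2 ^ j * s) * volume.real {v : X k | 2 ^ j * s ≤ ‖u N v‖} :=
        mul_le_mul_of_nonneg_left hint (by positivity)
    _ = ∑ j ∈ range J, (N : ℝ) ^ (KN k) * s ^ (2 * KN k) *
        (2 * (2 ^ j * s) * volume.real {v : X k | 2 ^ j * s ≤ ‖u N v‖}) := by
        rw [Finset.mul_sum]
    _ ≤ ∑ j ∈ range J, 2 * C * s * (1 / 2) ^ j := Finset.sum_le_sum hterm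
    _ = 2 * C * s * ∑ j ∈ range J, (1 / 2 : ℝ) ^ j := by rw [Finset.mul_sum]
    _ ≤ 2 * C * s * 2 := by
        apply mul_le_mul_of_nonneg_left _ (by positivity)
        have h9 := geom_sum_eq (show (1 / 2 : ℝ) ≠ 1 by norm_num) J
        rw [h9]
        have : (0 : ℝ) ≤ (1 / 2) ^ J := by positivity
        rw [div_le_iff_of_neg (by norm_num)]
        linarith
    _ = _ := by ring

theorem pf_RT (hWT : L_WT) (hCO : L_CO) (hAI : L_AI) : L_RT := by
  classical
  intro k hk
  obtain ⟨C, hC, hW⟩ := hWT k hk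
  refine ⟨8 * C * 4 ^ (2 * KN k - 1), ?_, ?_⟩
  · have : (1 : ℝ) ≤ 4 ^ (2 * KN k - 1) := one_le_pow₀ (by norm_num)
    nlinarith
  intro q N t ν τ A hq hN ht hν hτ hτ8 hA hAt hCnt
  have hK : 1 ≤ KN k := le_trans (by omega) (KN_ge k (by omega))
  have hq0 : (0 : ℝ) < q := by exact_mod_cast hq
  have hN0 : (0 : ℝ) < N := by exact_mod_cast hN
  have hum : Measurable fun v : X k => ‖u N v‖ := (hEX.2.2.2.2.2.2.2.1 k N).norm.measurable
  have hu1 : ∀ v : X k, ‖u N v‖ ≤ 1 := fun v => hEX.2.2.2.2.2.2.2.2 k N v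
  have hphi : ∀ b, Measurable (phi q b : X k → X k) := fun b => (hMP k q b hq).1.measurable
  set V : Set (X k) := {v : X k | t / 4 ≤ ‖u N v‖} with hV
  have hVm : MeasurableSet V := measurableSet_le measurable_const hum
  obtain ⟨s, hs⟩ : ∃ s : ℝ, s = t / (4 * τ) := ⟨_, rfl⟩
  have hs0 : 0 < s := by rw [hs]; positivity
  obtain ⟨A', hA'⟩ : ∃ A' : Set (X k), A' = {a : X k | a ∈ A ∧ hd q V a < τ} := ⟨_, rfl⟩
  have hmA' : ∀ a, a ∈ A' ↔ a ∈ A ∧ hd q V a < τ := by
    intro a; rw [hA']; exact Iff.rfl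
  have hhd : Measurable fun a : X k => hd q V a := by
    unfold hd pos
    apply Measurable.div_const
    have h1 : (fun a : X k => (((range q).filter (fun b => phi q b a ∈ V)).card : ℝ)) =
        fun a => ∑ b ∈ range q, V.indicator (fun _ => (1 : ℝ)) (phi q b a) := by
      funext a
      rw [Finset.card_filter]
      push_cast
      refine Finset.sum_congr rfl fun b _ => ?_
      by_cases h : phi q b a ∈ V
      · rw [Set.indicator_of_mem h, if_pos h]
      · rw [Set.indicator_of_notMem h, if_neg h]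
    rw [h1]
    apply Finset.measurable_sum
    intro b _
    exact (measurable_const.indicator hVm).comp (hphi b)
  have hA'm : MeasurableSet A' := by
    rw [hA']
    exact hA.inter (measurableSet_lt hhd measurable_const)
  have hCnt' : Cnt (H k q k) A' ν := by
    intro Y hY hd'
    exact hCnt Y (fun y hy => ((hmA' y).1 (hY y hy)).1) hd'
  set G : X k → ℝ := fun v => if s ≤ ‖u N v‖ then ‖u N v‖ else 0 with hG
  have hGm : Measurable G := Measurable.ite (measurableSet_le measurable_const hum) hum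
    measurable_const
  have hG0 : ∀ v, 0 ≤ G v := by
    intro v
    simp only [hG]
    split_ifs
    · exact norm_nonneg _
    · exact le_rfl
  have hG1 : ∀ v, G v ≤ 1 := by
    intro v
    simp only [hG]
    split_ifs
    · exact hu1 v
    · norm_num
  -- pointwise
  have hpt : ∀ a ∈ A', t / 2 ≤ (1 / (q : ℝ)) * ∑ b ∈ range q, G (phi q b a) := by
    intro a ha
    obtain ⟨haA, had⟩ := (hmA' a).1 ha
    have h1 : t ≤ (1 / (q : ℝ)) * ∑ b ∈ range q, ‖u N (phi q b a)‖ := by
      refine (hAt a haA).trans ?_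
      rw [hPF.2 k q N hq hN a, norm_mul]
      have h2 : ‖(1 / (q : ℂ))‖ = 1 / (q : ℝ) := by
        rw [norm_div, norm_one, Complex.norm_natCast]
      rw [h2]
      apply mul_le_mul_of_nonneg_left _ (by positivity)
      refine (norm_sum_le _ _).trans (le_of_eq ?_)
      refine Finset.sum_congr rfl fun b _ => ?_
      rw [norm_mul, hEX.1, one_mul]
    have h3 : ∀ b ∈ range q, ‖u N (phi q b a)‖ ≤ t / 4 +
        (if phi q b a ∈ V then s else 0) + G (phi q b a) := by
      intro b _
      by_cases h4 : phi q b a ∈ V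
      · rw [if_pos h4]
        by_cases h5 : s ≤ ‖u N (phi q b a)‖
        · simp only [hG, if_pos h5]
          linarith
        · simp only [hG, if_neg h5]
          push Not at h5
          linarith
      · rw [if_neg h4]
        have h5 : ‖u N (phi q b a)‖ < t / 4 := not_le.1 h4
        have := hG0 (phi q b a)
        linarith
    have h4 := Finset.sum_le_sum h3
    rw [Finset.sum_add_distrib, Finset.sum_add_distrib, Finset.sum_const, Finset.card_range,
      nsmul_eq_mul, ← Finset.sum_filter, Finset.sum_const, nsmul_eq_mul] at h4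
    have h5 : (((range q).filter fun b => phi q b a ∈ V).card : ℝ) ≤ τ * q := by
      unfold hd pos at had
      rw [div_lt_iff₀ hq0] at had
      exact had.le
    have h6 : (((range q).filter fun b => phi q b a ∈ V).card : ℝ) * s ≤ q * (t / 4) := by
      calc (((range q).filter fun b => phi q b a ∈ V).card : ℝ) * s ≤ τ * q * s :=
            mul_le_mul_of_nonneg_right h5 hs0.le
        _ = q * (t / 4) := by rw [hs]; field_simp
    rw [one_div, inv_mul_eq_div, le_div_iff₀ hq0] at h1 ⊢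
    linarith
  -- integration
  have hint1 : t / 2 * volume.real A' ≤
      ∫ a in A', (1 / (q : ℝ)) * ∑ b ∈ range q, G (phi q b a) := by
    have h1 : ∫ a in A', (t / 2 : ℝ) = volume.real A' * (t / 2) := by
      rw [setIntegral_const, smul_eq_mul]
    rw [mul_comm, ← h1]
    apply setIntegral_mono_on (integrable_const _).integrableOn _ hA'm hpt
    apply Integrable.integrableOn
    apply Integrable.const_mul
    apply integrable_finset_sum
    intro b _
    apply Integrable.of_bound (hGm.comp (hphi b)).aestronglyMeasurable 1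
    refine Filter.Eventually.of_forall fun a => ?_
    show ‖G (phi q b a)‖ ≤ 1
    rw [Real.norm_of_nonneg (hG0 _)]
    exact hG1 _
  have hint2 : ∫ a in A', (1 / (q : ℝ)) * ∑ b ∈ range q, G (phi q b a) ≤
      ν / (q : ℝ) ^ (KN k) * ∫ v, G v := by
    rw [integral_const_mul, integral_finset_sum]
    · have h1 : ∑ b ∈ range q, ∫ a in A', G (phi q b a) ≤
          ∑ b ∈ range q, ν / (q : ℝ) ^ (KN k) * ∫ v, G v :=
        Finset.sum_le_sum fun b _ => avg_fun hCO hAI hq b A' hA'm ν hCnt' G hGm 1 hG0 hG1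
      rw [Finset.sum_const, Finset.card_range, nsmul_eq_mul] at h1
      rw [one_div, inv_mul_le_iff₀ hq0]
      exact h1
    · intro b _
      apply Integrable.integrableOn
      apply Integrable.of_bound (hGm.comp (hphi b)).aestronglyMeasurable 1
      refine Filter.Eventually.of_forall fun a => ?_
      show ‖G (phi q b a)‖ ≤ 1
      rw [Real.norm_of_nonneg (hG0 _)]
      exact hG1 _
  have htail := tail_int hk hC hW hN hs0
  have hfin : t / 2 * volume.real A' ≤ ν / (q : ℝ) ^ (KN k) * ∫ v, G v := hint1.trans hint2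
  show ((q : ℝ) * N) ^ (KN k) * t ^ (2 * KN k) * volume.real {a : X k | a ∈ A ∧ hd q V a < τ} ≤ _
  rw [← hA']
  set I := ∫ v, G v with hI
  set W := volume.real A' with hW'
  obtain ⟨K, hKe⟩ : ∃ K, K = KN k := ⟨_, rfl⟩
  rw [← hKe] at hfin htail ⊢
  have hK1 : 1 ≤ K := by rw [hKe]; exact hK
  -- t^(2K) = (4 τ s)^(2K)
  have hts : t = 4 * τ * s := by rw [hs]; field_simp
  have hqK : (0 : ℝ) < (q : ℝ) ^ K := by positivity
  have h1 : t * W ≤ 2 * ν * I / (q : ℝ) ^ K := by
    have e0 : 2 * ν * I / (q : ℝ) ^ K = 2 * (ν / (q : ℝ) ^ K * I) := by ring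
    rw [e0]
    linarith
  have h2 : ((q : ℝ) * N) ^ K * t ^ (2 * K) * W * s ≤
      (2 * ν * (4 * τ) ^ (2 * K - 1)) * ((N : ℝ) ^ K * s ^ (2 * K) * I) := by
    have e1 : t ^ (2 * K) = t ^ (2 * K - 1) * t := by
      rw [← pow_succ]; congr 1; omega
    have e2 : t ^ (2 * K - 1) * s = (4 * τ) ^ (2 * K - 1) * s ^ (2 * K) := by
      have : s ^ (2 * K) = s ^ (2 * K - 1) * s := by
        rw [← pow_succ]; congr 1; omega
      rw [this, hts, mul_pow]
      ring
    calc ((q : ℝ) * N) ^ K * t ^ (2 * K) * W * s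
        = ((q : ℝ) ^ K * N ^ K) * (t ^ (2 * K - 1) * s) * (t * W) := by
          rw [e1, mul_pow]; ring
      _ ≤ ((q : ℝ) ^ K * N ^ K) * (t ^ (2 * K - 1) * s) * (2 * ν * I / (q : ℝ) ^ K) :=
          mul_le_mul_of_nonneg_left h1 (by positivity)
      _ = (2 * ν * (4 * τ) ^ (2 * K - 1)) * ((N : ℝ) ^ K * s ^ (2 * K) * I) := by
          rw [e2]; field_simp
  have h3 : ((q : ℝ) * N) ^ K * t ^ (2 * K) * W * s ≤
      (2 * ν * (4 * τ) ^ (2 * K - 1)) * (4 * C * s) :=
    h2.trans (mul_le_mul_of_nonneg_left htail (by positivity))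
  have h4 : ((q : ℝ) * N) ^ K * t ^ (2 * K) * W ≤ (2 * ν * (4 * τ) ^ (2 * K - 1)) * (4 * C) := by
    apply le_of_mul_le_mul_right _ hs0
    calc _ ≤ _ := h3
      _ = _ := by ring
  refine h4.trans (le_of_eq ?_)
  rw [mul_pow]
  ring

end Pool.Agent.H60.LVP
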