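import Pool.Agent.H60.LVP.NL
import Pool.Agent.H75.CLV.MP
import Pool.Agent.H58.CLV.TO
import Pool.Agent.H58.CLV.KC

/-!
# Power saving above the square root barrier: row TR
-/

set_option autoImplicit false

open Finset MeasureTheory

namespace Pool.Agent.H60.LVP

open Pool.Agent.H24.CL Pool.Agent.H24.LV

theorem hMP : T_MP := Pool.Agent.H75.CLV.pf_MP
theorem hTO : T_TO := Pool.Agent.H58.CLV.pf_TO
theorem hKC : T_KC := Pool.Agent.H58.CLV.pf_KC hTO

open Classical in
/-- the volume as an average of counting functions -/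
theorem vol_avg (hAI : L_AI) {k : ℕ} (Y : Finset (X k)) (hY : Y.Nonempty) (A : Set (X k))
    (hA : MeasurableSet A) :
    volume.real A = (1 / (Y.card : ℝ)) * ∫ a : X k, ((Y.filter fun κ => a + κ ∈ A).card : ℝ) := by
  have h1 := hAI k Y (A.indicator fun _ => (1 : ℝ)) 1 hY
    (measurable_const.indicator hA) (fun a => by
      by_cases h : a ∈ A
      · rw [Set.indicator_of_mem h]; norm_num
      · rw [Set.indicator_of_notMem h]; norm_num)
  rw [integral_indicator_const _ hA] at h1
  simp only [smul_eq_mul, mul_one] at h1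
  rw [h1]
  congr 2
  funext a
  rw [Finset.card_filter]
  push_cast
  refine Finset.sum_congr rfl fun κ _ => ?_
  by_cases h : a + κ ∈ A
  · rw [Set.indicator_of_mem h, if_pos h]
  · rw [Set.indicator_of_notMem h, if_neg h]

open Classical in
theorem card_meas {k : ℕ} (Y : Finset (X k)) (A : Set (X k)) (hA : MeasurableSet A) :
    Measurable fun a : X k => ((Y.filter fun κ => a + κ ∈ A).card : ℝ) := by
  have h1 : (fun a : X k => ((Y.filter fun κ => a + κ ∈ A).card : ℝ)) =
      fun a => ∑ κ ∈ Y, A.indicator (fun _ => (1 : ℝ)) (a + κ) := by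
    funext a
    rw [Finset.card_filter]
    push_cast
    refine Finset.sum_congr rfl fun κ _ => ?_
    by_cases h : a + κ ∈ A
    · rw [Set.indicator_of_mem h, if_pos h]
    · rw [Set.indicator_of_notMem h, if_neg h]
  rw [h1]
  apply Finset.measurable_sum
  intro κ _
  exact (measurable_const.indicator hA).comp (measurable_id.add_const κ)

open Classical in
theorem card_int {k : ℕ} (Y : Finset (X k)) (A : Set (X k)) (hA : MeasurableSet A) :
    Integrable fun a : X k => ((Y.filter fun κ => a + κ ∈ A).card : ℝ) := by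
  apply Integrable.of_bound (card_meas Y A hA).aestronglyMeasurable (Y.card : ℝ)
  refine Filter.Eventually.of_forall fun a => ?_
  rw [Real.norm_of_nonneg (Nat.cast_nonneg _)]
  exact_mod_cast Finset.card_filter_le _ _

open Classical in
theorem avg_le (hAI : L_AI) {k : ℕ} (Y : Finset (X k)) (hY : Y.Nonempty) (A B : Set (X k))
    (hA : MeasurableSet A) (hB : MeasurableSet B) (C : ℝ)
    (h : ∀ a, ((Y.filter fun κ => a + κ ∈ A).card : ℝ) ≤ if a ∈ B then C else 0) :
    volume.real A ≤ C / Y.card * volume.real B := by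
  rw [vol_avg hAI Y hY A hA]
  have h1 : ∫ a : X k, ((Y.filter fun κ => a + κ ∈ A).card : ℝ) ≤
      ∫ a : X k, B.indicator (fun _ => C) a := by
    apply integral_mono (card_int Y A hA)
    · exact (integrable_const C).indicator hB
    · intro a
      refine (h a).trans ?_
      by_cases ha : a ∈ B
      · rw [if_pos ha, Set.indicator_of_mem ha]
      · rw [if_neg ha, Set.indicator_of_notMem ha]
  rw [integral_indicator_const _ hB, smul_eq_mul] at h1
  calc 1 / (Y.card : ℝ) * ∫ a : X k, ((Y.filter fun κ => a + κ ∈ A).card : ℝ)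
      ≤ 1 / (Y.card : ℝ) * (volume.real B * C) := by
        apply mul_le_mul_of_nonneg_left h1
        positivity
    _ = _ := by ring

open Classical in
/-- counting by classes -/
theorem card_classes {k : ℕ} (Λ : AddSubgroup (X k)) (Γ : AddSubgroup (X k)) (G : Set (X k))
    (ν : ℝ) (n : ℕ) (hG : CntM Γ Λ G ν) (Y : Finset (X k)) (g : X k → X k)
    (hY : ∀ κ ∈ Y, g κ ∈ G) (hΓ : ∀ κ ∈ Y, ∀ κ' ∈ Y, g κ - g κ' ∈ Γ)
    (hn : ∀ κ ∈ Y, (Y.filter fun κ' => g κ' - g κ ∈ Λ).card ≤ n) :
    (Y.card : ℝ) ≤ n * ν := by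
  set f : X k → X k ⧸ Λ := fun κ => QuotientAddGroup.mk (g κ) with hf
  have h1 : Y.card ≤ n * (Y.image f).card := by
    apply Finset.card_le_mul_card_image
    intro c hc
    obtain ⟨κ, hκ, rfl⟩ := Finset.mem_image.1 hc
    refine le_trans (Finset.card_le_card ?_) (hn κ hκ)
    intro κ' hκ'
    rw [Finset.mem_filter] at hκ' ⊢
    refine ⟨hκ'.1, ?_⟩
    have := hκ'.2
    simp only [hf] at this
    rw [eq_comm, QuotientAddGroup.eq] at this
    rwa [neg_add_eq_sub] at this
  -- representatives
  have h2 : ∀ c ∈ Y.image f, ∃ κ ∈ Y, f κ = c := fun c hc => Finset.mem_image.1 hc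
  choose! r hr hr' using h2
  have h3 : ((Y.image f).card : ℝ) ≤ ν := by
    have hinj : Set.InjOn (fun c => g (r c)) (Y.image f) := by
      intro c hc c' hc' he
      have he' : g (r c) = g (r c') := he
      rw [← hr' c hc, ← hr' c' hc']
      simp only [hf, he']
    rw [← Finset.card_image_of_injOn hinj]
    apply hG
    · intro y hy
      obtain ⟨c, hc, rfl⟩ := Finset.mem_image.1 hy
      exact hY _ (hr c hc)
    · intro y hy y' hy'
      obtain ⟨c, hc, rfl⟩ := Finset.mem_image.1 hy
      obtain ⟨c', hc', rfl⟩ := Finset.mem_image.1 hy'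
      exact hΓ _ (hr c hc) _ (hr c' hc')
    · intro y hy y' hy' hd
      obtain ⟨c, hc, rfl⟩ := Finset.mem_image.1 hy
      obtain ⟨c', hc', rfl⟩ := Finset.mem_image.1 hy'
      have h4 : c = c' := by
        rw [← hr' c hc, ← hr' c' hc']
        simp only [hf]
        rw [eq_comm, QuotientAddGroup.eq, neg_add_eq_sub]
        exact hd
      rw [h4]
  calc (Y.card : ℝ) ≤ ((n * (Y.image f).card : ℕ) : ℝ) := by exact_mod_cast h1
    _ = n * ((Y.image f).card : ℝ) := by push_cast; ring
    _ ≤ n * ν := mul_le_mul_of_nonneg_left h3 (Nat.cast_nonneg _)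

theorem mem_H {k q r : ℕ} {a : X k} : a ∈ H k q r ↔ (q ^ r) • a = 0 := Iff.rfl

theorem phi_H {k q r : ℕ} (D x : ℕ) {a : X k} (h : a ∈ H k q r) : phi D x a ∈ H k q r := by
  rw [mem_H] at h ⊢
  rw [← map_nsmul, h, map_zero]

open Classical in
/-- the elements of the kernel of `phi q y` whose translates are good -/
theorem kr_count (hCO : L_CO) {k : ℕ} {q D : ℕ} (hq : 0 < q) (hco : D.Coprime q)
    {G : Set (X k)} {ν : ℝ} (hG : CntM (H k q k) (H k q 1) G ν) (y x : ℕ) (a : X k) :
    (((Kr k q y).filter fun κ => phi D x (a + κ) ∈ G).card : ℝ) ≤ q ^ k * ν := by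
  have hker : ∀ κ ∈ Kr k q y, κ ∈ H k q k := by
    intro κ hκ
    apply (hKC k q y hq).2
    rw [AddMonoidHom.mem_ker]
    exact ((hCO.2.2.2.1 k q y hq).2 κ).1 hκ
  have h := card_classes (H k q 1) (H k q k) G ν (q ^ k) hG
    ((Kr k q y).filter fun κ => phi D x (a + κ) ∈ G) (fun κ => phi D x (a + κ))
    (fun κ hκ => (Finset.mem_filter.1 hκ).2) ?_ ?_
  · push_cast at h
    exact h
  · intro κ hκ κ' hκ'
    have e1 : phi D x (a + κ) - phi D x (a + κ') = phi D x (κ - κ') := by
      rw [← map_sub]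
      congr 1
      abel
    show phi D x (a + κ) - phi D x (a + κ') ∈ H k q k
    rw [e1]
    apply phi_H
    exact AddSubgroup.sub_mem _ (hker κ (Finset.mem_filter.1 hκ).1)
      (hker κ' (Finset.mem_filter.1 hκ').1)
  · intro κ hκ
    have hcard : (HF k q 1).card = q ^ k := by
      have := (hTO k q hq).2.2.1 1
      rwa [one_mul] at this
    rw [← hcard]
    apply Finset.card_le_card_of_injOn (fun κ' => κ' - κ)
    · intro κ' hκ'
      have hm := Finset.mem_filter.1 hκ'
      show κ' - κ ∈ HF k q 1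
      rw [(hTO k q hq).2.1 1 (κ' - κ), mem_H, pow_one]
      have e1 : phi D x (a + κ') - phi D x (a + κ) = phi D x (κ' - κ) := by
        rw [← map_sub]
        congr 1
        abel
      have hm2 := hm.2
      rw [e1, mem_H, pow_one, ← map_nsmul] at hm2
      refine hCO.2.2.1 k D x (q ^ k) (q • (κ' - κ)) (Nat.Coprime.pow_right k hco) ?_ hm2
      have h3 : κ' - κ ∈ H k q k := AddSubgroup.sub_mem _
        (hker κ' (Finset.mem_filter.1 hm.1).1) (hker κ (Finset.mem_filter.1 hκ).1)
      rw [mem_H] at h3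
      rw [smul_comm, h3, smul_zero]
    · intro κ' _ κ'' _ he
      exact sub_left_injective he

theorem KN_ge (k : ℕ) (hk : 1 ≤ k) : k ≤ KN k := by
  unfold KN
  rw [Nat.le_div_iff_mul_le (by norm_num)]
  exact Nat.mul_le_mul_left k (by omega)

open Classical in
theorem pf_TR (hCO : L_CO) (hAI : L_AI) : L_TR := by
  intro k S V Gd P ν m τ Ω q hqS hSD T hT
  have hpr : ∀ p ∈ insert q S, p.Prime := fun p hp => (hSD.pr p hp).1
  have hqi : q ∈ insert q S := Finset.mem_insert_self _ _
  have hq : q.Prime := hpr q hqi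
  have hS : ∀ p ∈ S, p.Prime := fun p hp => hpr p (Finset.mem_insert_of_mem hp)
  have hD : 0 < DS S := DS_pos S hS
  have hco := DS_coprime S q hqS hq hS
  have hk := hSD.hk
  have hν := hSD.hν
  have hKk := KN_ge k (by omega)
  have hq0 : (0 : ℝ) < q := by exact_mod_cast hq.pos
  have hD0 : (0 : ℝ) < DS S := by exact_mod_cast hD
  have key : ∀ x : ℕ, volume.real {b : X k | T (phi q (x % q) b) (x / q) ∧
      phi (DS S) (x % DS S) b ∈ Gd q} ≤
      (q : ℝ) ^ k * ν / (q : ℝ) ^ (KN k) * volume.real {b : X k | T b (x / q)} := by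
    intro x
    have hphi : ∀ (D y : ℕ), 0 < D → MeasurableSet {b : X k | phi D y b ∈ Gd q} := by
      intro D y hD
      exact (hMP k D y hD).1.measurable (hSD.mG q hqi)
    have hTm : MeasurableSet {b : X k | T (phi q (x % q) b) (x / q)} :=
      (hMP k q (x % q) hq.pos).1.measurable (hT (x / q))
    obtain ⟨A, hAe⟩ : ∃ A : Set (X k), A = {b : X k | T (phi q (x % q) b) (x / q) ∧
      phi (DS S) (x % DS S) b ∈ Gd q} := ⟨_, rfl⟩
    obtain ⟨B, hBe⟩ : ∃ B : Set (X k), B = {b : X k | T (phi q (x % q) b) (x / q)} := ⟨_, rfl⟩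
    have hmA : ∀ b, b ∈ A ↔ T (phi q (x % q) b) (x / q) ∧ phi (DS S) (x % DS S) b ∈ Gd q := by
      intro b; rw [hAe]; exact Iff.rfl
    have hmB : ∀ b, b ∈ B ↔ T (phi q (x % q) b) (x / q) := by
      intro b; rw [hBe]; exact Iff.rfl
    have hAm : MeasurableSet A := by rw [hAe]; exact hTm.inter (hphi _ _ hD)
    have hBm : MeasurableSet B := by rw [hBe]; exact hTm
    have h1 := avg_le hAI (Kr k q (x % q)) (by
      rw [← Finset.card_pos, (hCO.2.2.2.1 k q (x % q) hq.pos).1]
      exact pow_pos hq.pos _) A B hAm hBm ((q : ℝ) ^ k * ν) ?_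
    · rw [(hCO.2.2.2.1 k q (x % q) hq.pos).1] at h1
      push_cast at h1
      rw [← hAe]
      refine h1.trans (le_of_eq ?_)
      congr 1
      rw [hBe]
      have h2 := (hMP k q (x % q) hq.pos).2.2.measureReal_preimage
        (hT (x / q)).nullMeasurableSet
      exact h2
    · intro a
      have hk0 : ∀ κ ∈ Kr k q (x % q), phi q (x % q) (a + κ) = phi q (x % q) a := by
        intro κ hκ
        rw [map_add, ((hCO.2.2.2.1 k q (x % q) hq.pos).2 κ).1 hκ, add_zero]
      by_cases ha : T (phi q (x % q) a) (x / q)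
      · rw [if_pos ((hmB a).2 ha)]
        refine le_trans ?_ (kr_count hCO hq.pos hco (hSD.fib q hqi) (x % q) (x % DS S) a)
        rw [Nat.cast_le]
        apply Finset.card_le_card
        intro κ hκ
        rw [Finset.mem_filter] at hκ ⊢
        exact ⟨hκ.1, ((hmA _).1 hκ.2).2⟩
      · rw [if_neg (fun h => ha ((hmB a).1 h))]
        rw [Finset.filter_false_of_mem]
        · simp
        · intro κ hκ hh
          apply ha
          have := ((hmA _).1 hh).1
          rwa [hk0 κ hκ] at this
  unfold mass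
  rw [DS_insert S q hqS]
  have h2 : ∑ x ∈ range (q * DS S), volume.real {b : X k | T (phi q (x % q) b) (x / q) ∧
      phi (DS S) (x % DS S) b ∈ Gd q} ≤ (q : ℝ) ^ k * ν / (q : ℝ) ^ (KN k) *
        (q * ∑ x ∈ range (DS S), volume.real {b : X k | T b x}) := by
    refine (Finset.sum_le_sum fun x _ => key x).trans ?_
    rw [← Finset.mul_sum]
    apply mul_le_mul_of_nonneg_left _ (by positivity)
    apply le_of_eq
    have h3 : ∀ (g : ℕ → ℝ) (D : ℕ), ∑ x ∈ range (q * D), g (x / q) = q * ∑ x ∈ range D, g x := by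
      intro g D
      induction D with
      | zero => simp
      | succ D ih =>
        rw [Nat.mul_succ, Finset.sum_range_add, ih, Finset.sum_range_succ, mul_add]
        congr 1
        have : ∀ y ∈ range q, g ((q * D + y) / q) = g D := by
          intro y hy
          rw [Nat.mul_add_div hq.pos, Nat.div_eq_of_lt (Finset.mem_range.1 hy), add_zero]
        rw [Finset.sum_congr rfl this, Finset.sum_const, Finset.card_range, nsmul_eq_mul]
    exact h3 (fun x => volume.real {b : X k | T b x}) (DS S)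
  push_cast
  have hpow : (q : ℝ) ^ (KN k) = (q : ℝ) ^ (KN k - k) * (q : ℝ) ^ k := by
    rw [← pow_add]
    congr 1
    omega
  calc ((q : ℝ) * DS S) ^ (KN k - k) * (1 / ((q : ℝ) * DS S) * ∑ x ∈ range (q * DS S),
        volume.real {b : X k | T (phi q (x % q) b) (x / q) ∧ phi (DS S) (x % DS S) b ∈ Gd q})
      ≤ ((q : ℝ) * DS S) ^ (KN k - k) * (1 / ((q : ℝ) * DS S) * ((q : ℝ) ^ k * ν /
        (q : ℝ) ^ (KN k) * (q * ∑ x ∈ range (DS S), volume.real {b : X k | T b x}))) := by
        apply mul_le_mul_of_nonneg_left _ (by positivity)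
        apply mul_le_mul_of_nonneg_left h2 (by positivity)
    _ = ν * ((DS S : ℝ) ^ (KN k - k) * (1 / (DS S : ℝ) *
        ∑ x ∈ range (DS S), volume.real {b : X k | T b x})) := by
        rw [hpow, mul_pow]
        field_simp

end Pool.Agent.H60.LVP
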